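import Pool.Agent.helper61.Y2.Spec

set_option autoImplicit false

namespace H61.Y2

open H61.Yorioka Cardinal

theorem SQA : SQA_stmt := by
  intro X Y J r k
  induction k with
  | zero =>
    intro P hP F hF _
    obtain ⟨y, hy⟩ := hP
    exact ⟨y, fun x hx => hy x (hF hx)⟩
  | succ k ih =>
    intro P hP F hF hc
    obtain ⟨φ, hφ, hS⟩ := hP
    have hZ : ⋃₀ (φ '' F) ∈ J := by
      by_contra hcon
      have h1 : add J ≤ #(φ '' F : Set (Set (ℕ → Bool))) := by
        unfold add
        apply csInf_le'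
        refine ⟨φ '' F, ?_, hcon, rfl⟩
        rintro s ⟨x, hx, rfl⟩
        exact hφ x (hF hx)
      exact absurd (lt_of_le_of_lt h1 (lt_of_le_of_lt mk_image_le hc)) (lt_irrefl _)
    exact ih _ (hS _ hZ) F (fun x hx => ⟨hF hx, Set.subset_sUnion_of_mem ⟨x, hx, rfl⟩⟩) hc

end H61.Y2
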